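import Pool.Agent.ChU.Final

/-!
# Chern's conjecture in dimension 4: large fundamental groups, relative to slow subgroups

A group is large if a subgroup of finite index maps onto the free group of rank 2.  We prove that the
fundamental group `G` of a closed affine 4-manifold `M` with Euler characteristic `χ ≠ 0` is large,
and that it is large relative to subgroups whose images in the rational first homology of the
subgroups of finite index of `G` grow slowly: if `A i` is a finite family of finitely generated
`d i`-slow subgroups of `G` with `6 ∑ d i < 8 |χ| - 3 χ` then a subgroup `H` of finite index maps onto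
the free group of rank 2 such that all `H ∩ g (A i) g⁻¹` are in the kernel.

* The empty family: if `χ ≠ 0` then `G` is large (`Pool.Agent.ChU.cor_large`).
* One subgroup of finite index, which is never in the kernel: if it is `d`-slow then
  `8 |χ| - 3 χ ≤ 6 d` (`Pool.Agent.ChU.cor_bound`).

The closed affine manifold `M` is given by a triangulation of its universal covering `|K|` by affine
simplices, `Pool.Agent.ChP.AffineTriangulation 4` (see `Pool/Agent/ChP/TriDefs.lean`), with group of
deck transformations `K.Γ`.  `Connected` (any two vertices are joined by an edge path) is defined in
`Pool/Agent/ChS/Defs.lean`, `SimplyConn` (every group valued 1-cocycle is a coboundary) in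
`Pool/Agent/ChL/Defs.lean`, `Slow` and `LargeRel` in `Pool/Agent/ChU/Defs.lean`.
-/

namespace Pool.Agent.Results.MP_1fa9a4_gt.LargeGroup

open Pool.Agent.ChP Pool.Agent.ChS Pool.Agent.ChL Pool.Agent.ChU

/-- Let `K` be the triangulated universal covering of a closed affine 4-manifold with Euler
characteristic `χ`, and let `A i` be a finite family of finitely generated `d i`-slow subgroups of the
fundamental group with `6 ∑ d i < 8 |χ| - 3 χ`.  Then a subgroup of finite index of the fundamental
group has a homomorphism onto the free group of rank 2 which is trivial on all its elements which are
conjugate in the fundamental group to elements of the subgroups `A i`. -/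
theorem result (K : AffineTriangulation 4) (hc : Connected K) (hs : SimplyConn K)
    {ι : Type} [Fintype ι] (A : ι → Subgroup K.Γ) (hfg : ∀ i, (A i).FG) (d : ι → ℝ)
    (hA : ∀ i, Slow (d i) (A i))
    (hd : 6 * ∑ i, d i < 8 * |(K.eulerChar : ℝ)| - 3 * K.eulerChar) : LargeRel A :=
  final_rel K hc hs A hfg d hA hd

end Pool.Agent.Results.MP_1fa9a4_gt.LargeGroup
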