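import Pool.Agent.ChG.FinalG

/-!
# The Euler characteristic and the middle Betti numbers of finite coverings of affine manifolds

Let `M` be a closed affine manifold of dimension `2 m`, `m ≥ 1`, triangulated by affine simplices,
`|K| → M` a connected regular covering (for instance the universal covering) with group of deck
transformations `Γ`, and `M_H = |K| / H` for a subgroup `H` of finite index in `Γ`.  For every
`N ≥ 1` there is a subgroup `Γ₀` of finite index such that for all `H ≤ Γ₀` of finite index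

`4^m |χ(M)| ≤ (2m).choose m * b_m(M_H; ℚ) / [Γ : H] + 1 / N`.

So `4^m |χ(M)| ≤ (2m).choose m * β` if `β` is the limit of the normalised middle Betti numbers
`b_m(M_H; ℚ) / [Γ : H]` for a cofinal sequence of subgroups of finite index, i.e. (Lück) the middle
`L²`-Betti number if `Γ` is residually finite and `|K|` the universal covering.  As
`(2m).choose m < 4^m`, Singer's conjecture (`β = |χ(M)|` if `M` is aspherical) implies `χ(M) = 0`.

The Betti numbers are computed by rational simplicial cochains of `K` which are invariant under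
`H`.  The triangulated closed affine manifold is given by
`Pool.Agent.ChP.AffineTriangulation (2 * m)` (see `Pool/Agent/ChP/TriDefs.lean`).  `Connected` and
`Lab` are defined in `Pool/Agent/ChS/Defs.lean`.
-/

namespace Pool.Agent.Results.MP_1fa9a4_gt.MiddleBettiNumbers

open Pool.Agent.ChP Pool.Agent.ChS
open scoped Pointwise

section

variable {n : ℕ} (K : AffineTriangulation n)

/-- The rational simplicial `k`-cochains of `|K| / H`: the functions on the `k`-dimensional
simplices of `K` which are invariant under `H` (extended by zero). -/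
def Cochains (H : Subgroup K.Γ) (k : ℕ) : Submodule ℚ (Finset K.V → ℚ) where
  carrier := {c | (∀ σ, c σ ≠ 0 → σ ∈ K.faces ∧ σ.card = k + 1) ∧
    ∀ γ ∈ H, ∀ σ : Finset K.V, c (γ • σ) = c σ}
  add_mem' := by
    rintro a b ⟨ha, ha'⟩ ⟨hb, hb'⟩
    refine ⟨fun σ h => ?_, fun γ hγ σ => ?_⟩
    · by_cases h1 : a σ = 0
      · refine hb σ fun h2 => h ?_
        rw [Pi.add_apply, h1, h2, add_zero]
      · exact ha σ h1
    · rw [Pi.add_apply, Pi.add_apply, ha' γ hγ, hb' γ hγ]
  zero_mem' := ⟨fun σ h => absurd rfl h, fun γ _ σ => rfl⟩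
  smul_mem' := by
    rintro r a ⟨ha, ha'⟩
    refine ⟨fun σ h => ha σ fun h2 => h ?_, fun γ hγ σ => ?_⟩
    · rw [Pi.smul_apply, h2, smul_zero]
    · rw [Pi.smul_apply, Pi.smul_apply, ha' γ hγ]

/-- The simplicial coboundary map on `k`-cochains, for the vertices ordered by their labels. -/
noncomputable def coboundary (o : Lab K) (k : ℕ) :
    (Finset K.V → ℚ) →ₗ[ℚ] (Finset K.V → ℚ) where
  toFun c τ := open Classical in
    if τ ∈ K.faces ∧ τ.card = k + 2 then
      ∑ v ∈ τ, (-1) ^ (τ.filter fun u => o.lab u < o.lab v).card * c (τ.erase v)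
    else 0
  map_add' a b := by
    funext τ
    simp only [Pi.add_apply]
    split_ifs
    · rw [← Finset.sum_add_distrib]
      exact Finset.sum_congr rfl fun v _ => mul_add _ _ _
    · rw [add_zero]
  map_smul' r a := by
    funext τ
    simp only [Pi.smul_apply, smul_eq_mul, RingHom.id_apply]
    split_ifs
    · rw [Finset.mul_sum]
      exact Finset.sum_congr rfl fun v _ => mul_left_comm _ _ _
    · rw [mul_zero]

/-- For `k ≥ 1` the `k`-th rational Betti number of `|K| / H`: the dimension of the space of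
cocycles minus the dimension of the space of coboundaries. -/
noncomputable def betti (o : Lab K) (H : Subgroup K.Γ) (k : ℕ) : ℤ :=
  (Module.finrank ℚ (Cochains K H k ⊓ LinearMap.ker (coboundary K o k) :
      Submodule ℚ (Finset K.V → ℚ)) : ℤ) -
    Module.finrank ℚ ((Cochains K H (k - 1)).map (coboundary K o (k - 1)))

end

open Pool.Agent.ChG in
theorem cochains_eq {n : ℕ} {K : AffineTriangulation n} (H : Subgroup K.Γ) [H.FiniteIndex]
    (k : ℕ) : Cochains K H k = CoC (K.restrict H) ℚ (k + 1) := by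
  ext c
  constructor
  · rintro ⟨h1, h2⟩
    refine ⟨fun σ => Submodule.mem_top, fun σ h => ?_, fun γ σ => h2 γ.1 γ.2 σ⟩
    by_contra h3
    exact h (h1 σ h3)
  · rintro ⟨-, h1, h2⟩
    refine ⟨fun σ h => ?_, fun γ hγ σ => h2 ⟨γ, hγ⟩ σ⟩
    by_contra h3
    exact h (h1 σ h3)

open Pool.Agent.ChG in
theorem coboundary_eq {n : ℕ} {K : AffineTriangulation n} (o : Lab K) (H : Subgroup K.Γ)
    [H.FiniteIndex] (k : ℕ) : coboundary K o k = dC (o.restrict H) ℚ (k + 1) := by
  classical
  ext c τ
  show (if τ ∈ K.faces ∧ τ.card = k + 2 then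
      ∑ v ∈ τ, (-1) ^ (τ.filter fun u => o.lab u < o.lab v).card * c (τ.erase v) else 0) =
    if τ ∈ K.faces ∧ τ.card = k + 1 + 1 then
      ∑ v ∈ τ, ((-1 : ℤ) ^ (τ.filter fun u => o.lab u < o.lab v).card) • c (τ.erase v) else 0
  refine if_congr Iff.rfl (Finset.sum_congr rfl fun v _ => ?_) rfl
  rw [zsmul_eq_mul]
  push_cast
  rfl

open Pool.Agent.ChG in
theorem betti_eq {n : ℕ} {K : AffineTriangulation n} (o : Lab K) (H : Subgroup K.Γ)
    [H.FiniteIndex] {m : ℕ} (hm : 0 < m) :
    betti K o H m = (Module.finrank ℚ (ZC (o.restrict H) ℚ (m + 1)) : ℤ) -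
      Module.finrank ℚ (BC (o.restrict H) ℚ m) := by
  classical
  have h1 : (Cochains K H m ⊓ LinearMap.ker (coboundary K o m) :
      Submodule ℚ (Finset K.V → ℚ)) = ZC (o.restrict H) ℚ (m + 1) := by
    rw [cochains_eq, coboundary_eq o H m]
    ext c
    constructor
    · rintro ⟨hc, hc'⟩
      refine ⟨hc, fun τ hτ hcard => ?_⟩
      have h2 : dC (o.restrict H) ℚ (m + 1) c = 0 := hc'
      have h3 := congrFun h2 τ
      change (if τ ∈ K.faces ∧ τ.card = m + 1 + 1 then cob (o.restrict H) c τ else 0) = 0 at h3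
      rw [if_pos ⟨hτ, hcard⟩] at h3
      exact h3
    · rintro ⟨hc, hc'⟩
      refine ⟨hc, ?_⟩
      show dC (o.restrict H) ℚ (m + 1) c = 0
      funext τ
      change (if τ ∈ K.faces ∧ τ.card = m + 1 + 1 then cob (o.restrict H) c τ else 0) = 0
      split_ifs with h
      · exact hc' τ h.1 h.2
      · rfl
  obtain ⟨k, rfl⟩ : ∃ k, m = k + 1 := ⟨m - 1, by omega⟩
  have h2 : (Cochains K H (k + 1 - 1)).map (coboundary K o (k + 1 - 1)) =
      BC (o.restrict H) ℚ (k + 1) := by
    have e : k + 1 - 1 = k := rfl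
    rw [e, cochains_eq, coboundary_eq o H k]
    rfl
  unfold betti
  rw [h1, h2]
  rfl

/-- Let `K` be a triangulated connected regular covering of a closed affine manifold of dimension
`2 m > 0` with group `Γ` of deck transformations.  Then for every `N` and all sufficiently deep
subgroups `H` of finite index in `Γ` one has
`4^m |χ| ≤ (2m).choose m * b_m(|K| / H) / [Γ : H] + 1 / N`. -/
theorem result (m : ℕ) (hm : 0 < m) (K : AffineTriangulation (2 * m)) (hc : Connected K)
    (o : Lab K) (N : ℕ) :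
    ∃ Γ₀ : Subgroup K.Γ, Γ₀.FiniteIndex ∧ ∀ H ≤ Γ₀, H.FiniteIndex →
      N * (4 ^ m * (H.index * |K.eulerChar|)) ≤
        N * ((2 * m).choose m * betti K o H m) + H.index := by
  have h4 : (2 : ℤ) ^ (2 * m) = 4 ^ m := by rw [pow_mul]; norm_num
  obtain ⟨Γ₀, hΓ₀, h⟩ := ChG.final_betti_gen hc o rfl hm N
  refine ⟨Γ₀, hΓ₀, fun H hle hH => ?_⟩
  have h2 := h H hH hle
  rw [h4, ← betti_eq o H hm] at h2
  exact h2

end Pool.Agent.Results.MP_1fa9a4_gt.MiddleBettiNumbers
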