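import Pool.Agent.ChM.FinalAB

/-!
# Chern's conjecture and operators on polynomials commuting with the linear holonomy

Let `M` be a closed affine `n`-manifold, triangulated by affine simplices, `H` a finite index
subgroup of its group of deck transformations and `V = V_1 ⊕ ... ⊕ V_r` a chain of subquotients of
the linear holonomy of `H` (for example `V = ℝ^n`, an invariant subspace, or the graded space of a
flag of invariant subspaces).  If the linear operators on the space of real polynomials on `V` which
commute with `H` do not all commute with each other, or are not all diagonalisable over `ℝ`, then
the Euler characteristic of `M` vanishes.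

The triangulated closed affine manifold is given by `Pool.Agent.ChP.AffineTriangulation n` (see
`Pool/Agent/ChP/TriDefs.lean`): a simplicial complex with a free cocompact action of the group
`Γ` of deck transformations, the developing map on its vertices, and the affine holonomy.  The
chains of subquotients `Pieces K H`, the operators `Op ℝ P.Ix` on polynomials on the direct sum and
`Equivariant` are defined in `Pool/Agent/ChM/Pieces.lean`.
-/

namespace Pool.Agent.Results.MP_1fa9a4_gt.MultiplicityFree

open Pool.Agent.ChP Pool.Agent.ChM

/-- Let `K` be a triangulated closed affine manifold, `H` a finite index subgroup of its group of
deck transformations, `P` a chain of subquotients of the linear holonomy of `H` and `E`, `F` linear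
operators on the space of real polynomials on their direct sum which commute with the action of `H`.
If `E` and `F` do not commute, or `E` is not diagonalisable over `ℝ`, then the Euler characteristic
of the manifold is zero. -/
theorem result {n : ℕ} (K : AffineTriangulation n) (H : Subgroup K.Γ) (hH : H.FiniteIndex)
    (P : Pieces K H) (E F : Op ℝ P.Ix) (hE : Equivariant H P.mat E)
    (hF : Equivariant H P.mat F) (h : E ∘ₗ F ≠ F ∘ₗ E ∨ ¬ Diagonalisable E) :
    K.eulerChar = 0 :=
  theoremB' K H hH P E F hE hF h

end Pool.Agent.Results.MP_1fa9a4_gt.MultiplicityFree
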