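import Pool.Agent.ChM.FinalAB

/-!
# Chern's conjecture and maps between forms commuting with the linear holonomy up to scalars

Let `M` be a closed affine `n`-manifold, triangulated by affine simplices, `H` a finite index
subgroup of its group of deck transformations and `V = V_1 ⊕ ... ⊕ V_r` a chain of subquotients of
the linear holonomy of `H` (for example `V = ℝ^n`, an invariant subspace, or the graded space of a
flag of invariant subspaces).  Suppose that a non-zero linear map from the complex forms of degree
`b` on `V` to those of degree `a` commutes with `H` up to scalars.  If `a ≠ b`, or if the scalars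
are not all `N`-th roots of unity for some `N`, then the Euler characteristic of `M` vanishes.

The triangulated closed affine manifold is given by `Pool.Agent.ChP.AffineTriangulation n` (see
`Pool/Agent/ChP/TriDefs.lean`): a simplicial complex with a free cocompact action of the group
`Γ` of deck transformations, the developing map on its vertices, and the affine holonomy.  The
chains of subquotients `Pieces K H`, the operators `Op ℂ P.Ix` on polynomials on the direct sum and
`MapsForms`, `NonzeroOn`, `SemiEquivariant` are defined in `Pool/Agent/ChM/Pieces.lean`.
-/

namespace Pool.Agent.Results.MP_1fa9a4_gt.SemiEquivariantMaps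

open Pool.Agent.ChP Pool.Agent.ChM

/-- Let `K` be a triangulated closed affine manifold, `H` a finite index subgroup of its group of
deck transformations, `P` a chain of subquotients of the linear holonomy of `H` and `E` a linear
operator on the complex polynomials on their direct sum which maps forms of degree `b` to forms of
degree `a`, is not zero on the forms of degree `b` and satisfies `E (f ∘ γ) = c γ • (E f) ∘ γ` for
all forms `f` of degree `b` and `γ ∈ H`.  If `a ≠ b`, or if there is no `N > 0` with
`c γ ^ N = 1` for all `γ ∈ H`, then the Euler characteristic of the manifold is zero. -/
theorem result {n : ℕ} (K : AffineTriangulation n) (H : Subgroup K.Γ) (hH : H.FiniteIndex)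
    (P : Pieces K H) (a b : ℕ) (E : Op ℂ P.Ix) (hE : MapsForms E b a) (h0 : NonzeroOn E b)
    (c : K.Γ → ℂ) (hc : SemiEquivariant H P.mat b E c)
    (h : a ≠ b ∨ ∀ N : ℕ, 0 < N → ∃ γ ∈ H, c γ ^ N ≠ 1) : K.eulerChar = 0 :=
  theoremA' K H hH P a b E hE h0 c hc h

end Pool.Agent.Results.MP_1fa9a4_gt.SemiEquivariantMaps
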